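import Mathlib
import Pool.Agent.Lib.MP_bd8ab5_nt.Prim

namespace Pool.Agent.Results.MP_bd8ab5_nt.Decidable

theorem result : ComputablePred fun l : List ℕ =>
    ∃ a b c d : ℕ, b ≠ 0 ∧ c ≠ 0 ∧
      (Nat.cast : ℕ → ℤ) '' (AddSubmonoid.closure {g : ℕ | g ∈ l} : Set ℕ) =
        {x : ℤ | ((a : ℤ) * x) % (b : ℤ) ≤ (c : ℤ) * x - (d : ℤ)} ∪ {0} :=
  (Pool.Agent.Lib.MP_bd8ab5_nt.prim_target.of_eq
    Pool.Agent.Lib.MP_bd8ab5_nt.target_iff).computablePred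

end Pool.Agent.Results.MP_bd8ab5_nt.Decidable
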